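import Mathlib

/-!
# Mod `p` modularity for `SL_2^m`: short definitions

The dual group of `SL_2^m` is `PGL_2^m`; a weight `x : Fin 2 → ℤ` stands for the character
`(diag(t_{i,0}, t_{i,1}))_i ↦ ∏_i t_{i,0}^{x 0} t_{i,1}^{x 1}` of the diagonal torus.
-/

namespace Pool.Agent.H4.S2Q

section Galois

variable {m : ℕ} {k : Type} [Field k]

/-- The matrix `b` is invertible, and its class in `PGL_2(k)` is `g`. -/
def Reps (b : Matrix (Fin 2) (Fin 2) k) (g : Matrix.ProjGenLinGroup (Fin 2) k) : Prop :=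
  ∃ c : GL (Fin 2) k, c.1 = b ∧ Matrix.ProjGenLinGroup.mk c = g

/-- `b` is upper triangular. -/
def Upper (b : Matrix (Fin 2) (Fin 2) k) : Prop := ∀ i j, j < i → b i j = 0

/-- `r` is a homomorphism, and it is continuous: it is trivial on the stabiliser of a finite set. -/
def IsHom (r : Gal(AlgebraicClosure ℚ/ℚ) → Matrix.ProjGenLinGroup (Fin 2) k) : Prop :=
  (∀ σ τ, r (σ * τ) = r σ * r τ) ∧ ∃ F : Finset (AlgebraicClosure ℚ),
    ∀ σ : Gal(AlgebraicClosure ℚ/ℚ), (∀ z ∈ F, σ z = z) → r σ = 1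

/-- `c` is a complex conjugation. -/
def IsConj (c : Gal(AlgebraicClosure ℚ/ℚ)) : Prop :=
  ∃ ι : AlgebraicClosure ℚ →+* ℂ, ∀ z, ι (c z) = starRingEnd ℂ (ι z)

/-- The trace of `X ↦ b X b⁻¹` on `M_2(k)` divided by the scalar matrices, that is the trace on
`M_2(k)` minus `1`. -/
noncomputable def trAd (b : Matrix (Fin 2) (Fin 2) k) : k :=
  ∑ i, ∑ j, (b * Matrix.single i j 1 * b⁻¹ : Matrix (Fin 2) (Fin 2) k) i j - 1

/-- `r` is odd: for every complex conjugation `c` the trace of `Ad(r(c))` on the Lie algebra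
of `PGL_2^m` is `rank(G) - 2 rank(K) = m - 2 m`, in `k`. -/
def IsOdd (r : Fin m → Gal(AlgebraicClosure ℚ/ℚ) → Matrix.ProjGenLinGroup (Fin 2) k) : Prop :=
  ∀ c, IsConj c → ∃ b : Fin m → Matrix (Fin 2) (Fin 2) k, (∀ i, Reps (b i) (r i c)) ∧
    ∑ i, trAd (b i) = ((m - 2 * m : ℤ) : k)

/-- `σ` is in the decomposition group of the place `A`. -/
def Decomp (A : ValuationSubring (AlgebraicClosure ℚ)) (σ : Gal(AlgebraicClosure ℚ/ℚ)) : Prop :=
  ∀ z, σ z ∈ A ↔ z ∈ A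

/-- `σ` is in the inertia group of the place `A`. -/
def Inertia (A : ValuationSubring (AlgebraicClosure ℚ)) (σ : Gal(AlgebraicClosure ℚ/ℚ)) : Prop :=
  ∀ z ∈ A, σ z - z ∈ A.nonunits

/-- `ω(σ) = u` in `k`, for the cyclotomic character `ω` modulo `p`. -/
def IsOmega (p : ℕ) (σ : Gal(AlgebraicClosure ℚ/ℚ)) (u : k) : Prop :=
  ∃ n : ℕ, (∀ ζ : AlgebraicClosure ℚ, ζ ^ p = 1 → σ ζ = ζ ^ n) ∧ (n : k) = u

/-- `r` is nearly ordinary of type `x` at `p`: for every place `A` over `p` some conjugate of `r`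
is upper triangular on the decomposition group, with diagonal `(ω ^ x 0, ω ^ x 1)` on inertia. -/
def NearlyOrdinary (p : ℕ) (x : Fin 2 → ℤ)
    (r : Gal(AlgebraicClosure ℚ/ℚ) → Matrix.ProjGenLinGroup (Fin 2) k) : Prop :=
  ∀ A : ValuationSubring (AlgebraicClosure ℚ), (p : AlgebraicClosure ℚ) ∈ A.nonunits → 
    ∃ g, ∀ σ, Decomp A σ → ∃ b : Matrix (Fin 2) (Fin 2) k, Reps b (g * r σ * g⁻¹) ∧ Upper b ∧
      (Inertia A σ → ∀ u, IsOmega p σ u → ∀ j, b j j = u ^ x j)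

/-- `r` is unramified at the prime `l`. -/
def UnramifiedAt (l : ℕ)
    (r : Gal(AlgebraicClosure ℚ/ℚ) → Matrix.ProjGenLinGroup (Fin 2) k) : Prop :=
  ∀ A : ValuationSubring (AlgebraicClosure ℚ), (l : AlgebraicClosure ℚ) ∈ A.nonunits →
    ∀ σ, Inertia A σ → r σ = 1

/-- No line is stable under the image of `r`, over the algebraic closure of `k`. -/
def NoStableLine (r : Gal(AlgebraicClosure ℚ/ℚ) → Matrix.ProjGenLinGroup (Fin 2) k) : Prop :=
  ∀ v : Fin 2 → AlgebraicClosure k, (∃ i, v i ≠ 0) → ∃ σ b, Reps b (r σ) ∧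
    ∀ a, ∃ i, ∑ j, algebraMap k (AlgebraicClosure k) (b i j) * v j ≠ a * v i

end Galois

section Rep

variable {m : ℕ} {G H R k V M W : Type} [Group G] [Group H] [CommRing R] [Field k]
  [AddCommGroup V] [Module ℚ V] [AddCommGroup M] [AddCommGroup W] [Module k W]

/-- The weight `(a, 0)`. -/
def wt (a : ℤ) : Fin 2 → ℤ := ![a, 0]

/-- `f` is an isomorphism of `G` with `SL_2(R)^m`. -/
def IsSL (f : G → Fin m → Matrix (Fin 2) (Fin 2) R) : Prop :=
  Function.Injective f ∧ (∀ g g' i, f (g * g') i = f g i * f g' i) ∧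
    ∀ b, (∃ g, f g = b) ↔ ∀ i, (b i).det = 1

/-- `ρ` is an irreducible algebraic representation of `H`, identified with `SL_2(ℚ)^m` by `h`, over
`ℚ`, of highest weight `x` in every factor. -/
def IsIrrep (h : H → Fin m → Matrix (Fin 2) (Fin 2) ℚ) (x : Fin 2 → ℤ)
    (ρ : Representation ℚ H V) : Prop :=
  FiniteDimensional ℚ V ∧
    (∀ v, v ≠ 0 → Submodule.span ℚ (Set.range fun g => ρ g v) = ⊤) ∧
    (∀ (F : V →ₗ[ℚ] ℚ) (v : V), ∃ P : MvPolynomial (Fin m × Fin 2 × Fin 2) ℚ,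
      ∀ g, F (ρ g v) = MvPolynomial.eval (fun t => h g t.1 t.2.1 t.2.2) P) ∧
    ∃ v, v ≠ 0 ∧ ∀ g, (∀ i, Upper (h g i)) → ρ g v = (∏ i, ∏ j, h g i j j ^ x j) • v

/-- `μ` is the action of `G`, identified with `SL_2(ℤ)^m` by `f`, on a `G`-stable lattice in the
representation `ρ` of `H`, identified with `SL_2(ℚ)^m` by `h`. -/
def IsLatticeIn (f : G → Fin m → Matrix (Fin 2) (Fin 2) ℤ) (h : H → Fin m → Matrix (Fin 2) (Fin 2) ℚ)
    (μ : Representation ℤ G M) (ρ : Representation ℚ H V) : Prop :=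
  Module.Finite ℤ M ∧ ∃ q : M →+ V, Function.Injective q ∧
    Submodule.span ℚ (Set.range q) = ⊤ ∧
    ∀ g g', (∀ i j l, h g' i j l = f g i j l) → ∀ v, q (μ g v) = ρ g' (q v)

/-- `τ` is the representation `k ⊗ M`: `q` maps some basis of `M` to a basis of `W`. -/
def IsReduction (μ : Representation ℤ G M) (τ : Representation k G W) : Prop :=
  ∃ (n : ℕ) (e : Module.Basis (Fin n) ℤ M) (w : Module.Basis (Fin n) k W) (q : M →+ W),
    (∀ i, q (e i) = w i) ∧ ∀ g v, q (μ g v) = τ g (q v)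

/-- All cohomology groups of `τ` vanish. -/
def Acyclic (τ : Representation k G W) : Prop :=
  ∀ n, Subsingleton (groupCohomology (Rep.of τ) n)

end Rep

end Pool.Agent.H4.S2Q
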