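import Pool.Agent.H4.S2Q.Defs
import Pool.Agent.H4.S2P.SCP

/-!
# Proofs for the short form
-/

open Pool.Agent.H4.S2P (rho1 rho1_apply permHom permHom_spec permHom_eq_one_iff
  permHom_complexConj rt symRep symRep_submodule symRep_isIrrep VR castV isZero_of_center)

namespace Pool.Agent.H4.S2Q

/-! ## The Galois side -/

section Galois

variable {k : Type} [Field k]

theorem reps_of (c : GL (Fin 2) k) : Reps c.1 (Matrix.ProjGenLinGroup.mk c) := ⟨c, rfl, rfl⟩

theorem upper_of {b : Matrix (Fin 2) (Fin 2) k} (h : b 1 0 = 0) : Upper b := by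
  intro i j hij
  fin_cases i <;> fin_cases j
  · exact absurd hij (lt_irrefl _)
  · exact absurd hij (by decide)
  · exact h
  · exact absurd hij (lt_irrefl _)

theorem isHom_rho1 (k : Type) [Field k] : IsHom (fun σ => rho1 k σ) := by
  classical
  refine ⟨fun σ τ => map_mul _ σ τ, Finset.univ.image rt, fun σ hσ => ?_⟩
  have h : permHom σ = 1 := (permHom_eq_one_iff σ).2 fun i =>
    hσ _ (Finset.mem_image_of_mem _ (Finset.mem_univ i))
  change rho1 k σ = 1
  rw [rho1_apply, h, map_one, map_one]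

theorem nearlyOrdinary_rho1 (k : Type) [Field k] [CharP k 229] {a : ℕ} (ha : a % 228 = 114) :
    NearlyOrdinary 229 (wt a) (fun σ => rho1 k σ) := by
  intro A hA
  obtain ⟨g, hg⟩ := S2P.SC.rho1_nearlyOrdinary k ha A hA
  refine ⟨g, fun σ hσ => ?_⟩
  obtain ⟨b, hb, hb', hb''⟩ := hg σ hσ
  exact ⟨b.1, ⟨b, rfl, hb⟩, upper_of hb', hb''⟩

theorem unramifiedAt_rho1 (k : Type) [Field k] {l : ℕ} (hl : l.Prime) (hl' : l ≠ 229) :
    UnramifiedAt l (fun σ => rho1 k σ) := S2P.SC.rho1_unramified k hl hl'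

theorem noStableLine_rho1 (k : Type) [Field k] [CharP k 229] :
    NoStableLine (fun σ => rho1 k σ) := by
  intro v hv
  have hv' : v ≠ 0 := by
    rintro rfl
    obtain ⟨i, hi⟩ := hv
    exact hi rfl
  obtain ⟨σ, b, hb, hb'⟩ := S2P.SC.rho1_noStableLine k (AlgebraicClosure k) v hv'
  refine ⟨σ, b.1, ⟨b, rfl, hb⟩, fun a => ?_⟩
  by_contra hcon
  push Not at hcon
  refine hb' a (funext fun i => ?_)
  exact hcon i

theorem trAd_one : trAd (1 : Matrix (Fin 2) (Fin 2) k) = 3 := by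
  unfold trAd
  rw [inv_one]
  simp only [Fin.sum_univ_two, one_mul, mul_one, Matrix.single_apply, and_self, if_true]
  norm_num

theorem isOdd_rho1 (k : Type) [Field k] [CharP k 229] {m : ℕ} (hm : 229 ∣ m) :
    IsOdd (fun (_ : Fin m) σ => rho1 k σ) := by
  intro c hc
  have hc' : permHom c = 1 := permHom_complexConj hc
  have h0 : (m : k) = 0 := (CharP.cast_eq_zero_iff k 229 m).mpr hm
  refine ⟨fun _ => 1, fun _ => ⟨1, rfl, ?_⟩, ?_⟩
  · change Matrix.ProjGenLinGroup.mk 1 = rho1 k c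
    rw [rho1_apply, hc', map_one, map_one, map_one]
  · rw [Finset.sum_const, Finset.card_univ, Fintype.card_fin, nsmul_eq_mul, h0]
    push_cast
    rw [h0]
    ring

end Galois

/-! ## The groups -/

section Groups

variable {m : ℕ} {G R : Type} [Group G] [CommRing R]

theorem IsSL.det {f : G → Fin m → Matrix (Fin 2) (Fin 2) R} (hf : IsSL f) (g : G) (i : Fin m) : (f g i).det = 1 :=
  (hf.2.2 (f g)).1 ⟨g, rfl⟩ i

/-- The isomorphism with `SL_2(R)^m`. -/
def IsSL.hom {f : G → Fin m → Matrix (Fin 2) (Fin 2) R} (hf : IsSL f) :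
    G →* (Fin m → Matrix.SpecialLinearGroup (Fin 2) R) :=
  MonoidHom.mk' (fun g i => ⟨f g i, hf.det g i⟩) fun g g' =>
    funext fun i => Subtype.ext (hf.2.1 g g' i)

theorem IsSL.hom_val {f : G → Fin m → Matrix (Fin 2) (Fin 2) R} (hf : IsSL f) (g : G) (i : Fin m) :
    (hf.hom g i).1 = f g i := rfl

theorem IsSL.hom_surj {f : G → Fin m → Matrix (Fin 2) (Fin 2) R} (hf : IsSL f) : Function.Surjective hf.hom := by
  intro y
  obtain ⟨g, hg⟩ := (hf.2.2 (fun i => (y i).1)).2 (fun i => (y i).2)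
  exact ⟨g, funext fun i => Subtype.ext (congrFun hg i)⟩

theorem IsSL.exists_z {f : G → Fin m → Matrix (Fin 2) (Fin 2) R} (hf : IsSL f) (i₀ : Fin m) :
    ∃ z : G, (∀ i, f z i = if i = i₀ then -1 else 1) ∧ z ∈ Subgroup.center G := by
  obtain ⟨z, hz⟩ := (hf.2.2 (fun i => if i = i₀ then -1 else 1)).2 (fun i => by
    by_cases h : i = i₀
    · rw [if_pos h]
      simp [Matrix.det_fin_two]
    · rw [if_neg h, Matrix.det_one])
  have hz' : ∀ i, f z i = if i = i₀ then -1 else 1 := fun i => congrFun hz i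
  refine ⟨z, hz', Subgroup.mem_center_iff.mpr fun g => hf.1 (funext fun i => ?_)⟩
  rw [hf.2.1, hf.2.1, hz']
  by_cases h : i = i₀
  · rw [if_pos h, mul_neg, neg_mul, mul_one, one_mul]
  · rw [if_neg h, mul_one, one_mul]

end Groups

/-! ## Existence -/

theorem orbit_top {G H V : Type} [Group G] [Group H] [AddCommGroup V] [Module ℚ V]
    (ρ : Representation ℚ G V)
    (hρ : ∀ U : Submodule ℚ V, (∀ g, ∀ x ∈ U, ρ g x ∈ U) → U = ⊥ ∨ U = ⊤) (j : H →* G)
    (hj : Function.Surjective j) {v : V} (hv : v ≠ 0) :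
    Submodule.span ℚ (Set.range fun g => ρ.comp j g v) = ⊤ := by
  have h1 : (Set.range fun g => ρ.comp j g v) = Set.range fun g => ρ g v := by
    ext y
    constructor
    · rintro ⟨g, hg⟩
      exact ⟨j g, hg⟩
    · rintro ⟨g, hg⟩
      obtain ⟨g', rfl⟩ := hj g
      exact ⟨g', hg⟩
  rw [h1]
  have h2 : v ∈ Submodule.span ℚ (Set.range fun g => ρ g v) :=
    Submodule.subset_span ⟨1, by
      change ρ 1 v = v
      rw [map_one, Module.End.one_apply]⟩
  rcases hρ (Submodule.span ℚ (Set.range fun g => ρ g v)) (fun g x hx => by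
    have h3 : Submodule.span ℚ (Set.range fun g => ρ g v) ≤
        (Submodule.span ℚ (Set.range fun g => ρ g v)).comap (ρ g) := by
      rw [Submodule.span_le]
      rintro _ ⟨g', rfl⟩
      apply Submodule.subset_span
      refine ⟨g * g', ?_⟩
      change ρ (g * g') v = ρ g (ρ g' v)
      rw [map_mul, Module.End.mul_apply]
    exact h3 hx) with h4 | h4
  · rw [h4, Submodule.mem_bot] at h2
    exact absurd h2 hv
  · exact h4

theorem exists_sym {m : ℕ} {G H : Type} [Group G] [Group H]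
    {f : G → Fin m → Matrix (Fin 2) (Fin 2) ℤ} {h : H → Fin m → Matrix (Fin 2) (Fin 2) ℚ}
    (hf : IsSL f) (hh : IsSL h) (n : ℕ) :
    IsIrrep h (wt n) ((symRep (Fin m) ℚ n).comp hh.hom) ∧
      IsLatticeIn f h ((symRep (Fin m) ℤ n).comp hf.hom) ((symRep (Fin m) ℚ n).comp hh.hom) := by
  have hI := symRep_isIrrep (I := Fin m) n
  have hL := S2P.SC.symRep_lattice m n
  refine ⟨⟨hI.1, ?_, ?_, ?_⟩, ?_⟩
  · intro v hv
    exact orbit_top _ (symRep_submodule n) hh.hom hh.hom_surj hv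
  · intro F v
    obtain ⟨P, hP⟩ := hI.2 F v
    exact ⟨P, fun g => hP (hh.hom g)⟩
  · obtain ⟨v, hv, hv'⟩ := hI.4
    refine ⟨v, hv, fun g hg => ?_⟩
    exact hv' (hh.hom g) (fun i => hg i 1 0 (by decide))
  · obtain ⟨hfin, q, hq1, hq2, hq3⟩ := hL
    refine ⟨hfin, q.toAddMonoidHom, hq1, hq2, fun g g' hgg' v => ?_⟩
    have h1 : hh.hom g' = fun i => Matrix.SpecialLinearGroup.map (Int.castRingHom ℚ)
        (hf.hom g i) := by
      funext i
      apply Subtype.ext
      ext j l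
      exact hgg' i j l
    have h5 : q (symRep (Fin m) ℤ n (hf.hom g) v) = symRep (Fin m) ℚ n (hh.hom g') (q v) :=
      (hq3 (hf.hom g) v).trans (congrArg (fun y => symRep (Fin m) ℚ n y (q v)) h1.symm)
    exact h5

/-- Transport of a representation along a linear equivalence. -/
def transport {R G V V' : Type} [CommRing R] [Group G] [AddCommGroup V] [Module R V]
    [AddCommGroup V'] [Module R V'] (ρ : Representation R G V) (φ : V ≃ₗ[R] V') :
    Representation R G V' where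
  toFun g := φ.toLinearMap ∘ₗ ρ g ∘ₗ φ.symm.toLinearMap
  map_one' := by
    ext x
    simp
  map_mul' g g' := by
    ext x
    simp

theorem transport_apply {R G V V' : Type} [CommRing R] [Group G] [AddCommGroup V] [Module R V]
    [AddCommGroup V'] [Module R V'] (ρ : Representation R G V) (φ : V ≃ₗ[R] V') (g : G) (x : V') :
    transport ρ φ g x = φ (ρ g (φ.symm x)) := rfl

theorem transport_isIrrep {m : ℕ} {H V V' : Type} [Group H] [AddCommGroup V] [Module ℚ V]
    [AddCommGroup V'] [Module ℚ V'] {h : H → Fin m → Matrix (Fin 2) (Fin 2) ℚ} {x : Fin 2 → ℤ}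
    {ρ : Representation ℚ H V} (hρ : IsIrrep h x ρ) (φ : V ≃ₗ[ℚ] V') :
    IsIrrep h x (transport ρ φ) := by
  obtain ⟨hfin, hirr, hpol, v0, hv0, hv0'⟩ := hρ
  refine ⟨Module.Finite.equiv φ, ?_, ?_, φ v0, ?_, ?_⟩
  · intro v hv
    have h1 : (Set.range fun g => transport ρ φ g v)
        = φ '' (Set.range fun g => ρ g (φ.symm v)) := by
      rw [← Set.range_comp]
      rfl
    rw [h1]
    have h2 := hirr (φ.symm v) (fun hcon => hv (by
      rw [← φ.apply_symm_apply v, hcon, map_zero]))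
    have h3 : Submodule.span ℚ (φ '' (Set.range fun g => ρ g (φ.symm v)))
        = (Submodule.span ℚ (Set.range fun g => ρ g (φ.symm v))).map φ.toLinearMap := by
      rw [Submodule.map_span]
      rfl
    rw [h3, h2, Submodule.map_top, LinearMap.range_eq_top]
    exact φ.surjective
  · intro F v
    obtain ⟨P, hP⟩ := hpol (F ∘ₗ φ.toLinearMap) (φ.symm v)
    exact ⟨P, hP⟩
  · intro hcon
    exact hv0 ((map_eq_zero_iff φ φ.injective).1 hcon)
  · intro g hg
    rw [transport_apply, φ.symm_apply_apply, hv0' g hg, map_smul]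

theorem transport_isLatticeIn {m : ℕ} {G H V V' M M' : Type} [Group G] [Group H]
    [AddCommGroup V] [Module ℚ V] [AddCommGroup V'] [Module ℚ V'] [AddCommGroup M]
    [AddCommGroup M'] {f : G → Fin m → Matrix (Fin 2) (Fin 2) ℤ}
    {h : H → Fin m → Matrix (Fin 2) (Fin 2) ℚ} {ρ : Representation ℚ H V}
    {μ : Representation ℤ G M} (hμ : IsLatticeIn f h μ ρ) (φ : V ≃ₗ[ℚ] V') (ψ : M ≃ₗ[ℤ] M') :
    IsLatticeIn f h (transport μ ψ) (transport ρ φ) := by
  obtain ⟨hfin, q, hq1, hq2, hq3⟩ := hμ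
  refine ⟨Module.Finite.equiv ψ,
    (φ.toLinearMap.toAddMonoidHom.comp q).comp ψ.symm.toLinearMap.toAddMonoidHom, ?_, ?_, ?_⟩
  · intro v w hvw
    exact ψ.symm.injective (hq1 (φ.injective hvw))
  · have h1 : (Set.range ((φ.toLinearMap.toAddMonoidHom.comp q).comp
        ψ.symm.toLinearMap.toAddMonoidHom)) = φ '' (Set.range q) := by
      ext y
      constructor
      · rintro ⟨v, hv⟩
        exact ⟨q (ψ.symm v), ⟨_, rfl⟩, hv⟩
      · rintro ⟨_, ⟨v, rfl⟩, hv⟩
        refine ⟨ψ v, ?_⟩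
        change φ (q (ψ.symm (ψ v))) = y
        rw [ψ.symm_apply_apply, hv]
    have h3 : Submodule.span ℚ (φ '' (Set.range q))
        = (Submodule.span ℚ (Set.range q)).map φ.toLinearMap := by
      rw [Submodule.map_span]
      rfl
    rw [h1, h3, hq2, Submodule.map_top, LinearMap.range_eq_top]
    exact φ.surjective
  · intro g g' hgg' v
    change φ (q (ψ.symm (transport μ ψ g v))) = transport ρ φ g' (φ (q (ψ.symm v)))
    rw [transport_apply, transport_apply, ψ.symm_apply_apply, φ.symm_apply_apply,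
      hq3 g g' hgg']

theorem exists_model_aux {m : ℕ} {G H V M : Type} [Group G] [Group H]
    [AddCommGroup V] [Module ℚ V] [AddCommGroup M] {f : G → Fin m → Matrix (Fin 2) (Fin 2) ℤ}
    {h : H → Fin m → Matrix (Fin 2) (Fin 2) ℚ} {x : Fin 2 → ℤ} {ρ : Representation ℚ H V}
    {μ : Representation ℤ G M} (hρ : IsIrrep h x ρ) (hμ : IsLatticeIn f h μ ρ) :
    ∃ (n : ℕ) (ρ : Representation ℚ H (Fin n → ℚ)) (μ : Representation ℤ G (Fin n → ℤ)),
      IsIrrep h x ρ ∧ IsLatticeIn f h μ ρ := by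
  have hμ' := hμ
  obtain ⟨hfin, q, hq1, hq2, hq3⟩ := hμ'
  have := hfin
  have : FiniteDimensional ℚ V := hρ.1
  have : IsAddTorsionFree V := .of_module_rat _
  have : Module.IsTorsionFree ℤ M :=
    Function.Injective.moduleIsTorsionFree q hq1 (fun c y => map_zsmul q c y)
  let e := Module.finBasis ℤ M
  have hli : LinearIndependent ℚ (fun i => q (e i)) := by
    rw [← LinearIndependent.iff_fractionRing ℤ ℚ]
    exact e.linearIndependent.map' q.toIntLinearMap (LinearMap.ker_eq_bot.2 hq1)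
  have hsp : ⊤ ≤ Submodule.span ℚ (Set.range fun i => q (e i)) := by
    rw [← hq2, Submodule.span_le]
    rintro _ ⟨v, rfl⟩
    rw [← e.sum_repr v, map_sum]
    refine Submodule.sum_mem _ fun i _ => ?_
    rw [map_zsmul]
    have h7 : q (e i) ∈ Submodule.span ℚ (Set.range fun i => q (e i)) :=
      Submodule.subset_span ⟨i, rfl⟩
    exact zsmul_mem h7 _
  let b := Module.Basis.mk hli hsp
  exact ⟨_, transport ρ b.equivFun, transport μ e.equivFun, transport_isIrrep hρ b.equivFun,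
    transport_isLatticeIn hμ b.equivFun e.equivFun⟩

theorem exists_model {m : ℕ} {G H : Type} [Group G] [Group H]
    {f : G → Fin m → Matrix (Fin 2) (Fin 2) ℤ} {h : H → Fin m → Matrix (Fin 2) (Fin 2) ℚ}
    (hf : IsSL f) (hh : IsSL h) (n : ℕ) :
    ∃ (N : ℕ) (ρ : Representation ℚ H (Fin N → ℚ)) (μ : Representation ℤ G (Fin N → ℤ)),
      IsIrrep h (wt n) ρ ∧ IsLatticeIn f h μ ρ := by
  obtain ⟨h1, h2⟩ := exists_sym hf hh n
  exact exists_model_aux h1 h2

/-! ## Vanishing -/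

section Vanish

variable {m : ℕ} {G H V M W : Type} [Group G] [Group H] [AddCommGroup V] [Module ℚ V]
  [AddCommGroup M] [AddCommGroup W]

theorem rho_z {h : H → Fin m → Matrix (Fin 2) (Fin 2) ℚ} {x : Fin 2 → ℤ} {ρ : Representation ℚ H V}
    (hρ : IsIrrep h x ρ) (hx : Odd (x 0 + x 1)) {i₀ : Fin m} {z : H}
    (hz : ∀ i, h z i = if i = i₀ then -1 else 1) (hzc : z ∈ Subgroup.center H) (v : V) :
    ρ z v = -v := by
  obtain ⟨_, hirr, _, v0, hv0, hv0'⟩ := hρ
  have h1 : (∏ i, ∏ j, h z i j j ^ x j : ℚ) = -1 := by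
    rw [Finset.prod_eq_single i₀]
    · rw [hz, if_pos rfl, Fin.prod_univ_two]
      have e0 : (-1 : Matrix (Fin 2) (Fin 2) ℚ) 0 0 = -1 := by simp
      have e1 : (-1 : Matrix (Fin 2) (Fin 2) ℚ) 1 1 = -1 := by simp
      rw [e0, e1, ← zpow_add₀ (by norm_num), hx.neg_one_zpow]
    · intro i _ hi
      rw [hz, if_neg hi, Fin.prod_univ_two]
      simp
    · intro hcon
      exact absurd (Finset.mem_univ i₀) hcon
  have h2 : ρ z v0 = -v0 := by
    rw [hv0' z (fun i => ?_), h1, neg_one_smul]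
    rw [hz]
    intro j l hjl
    by_cases hi : i = i₀
    · rw [if_pos hi, Matrix.neg_apply, Matrix.one_apply_ne (ne_of_gt hjl), neg_zero]
    · rw [if_neg hi, Matrix.one_apply_ne (ne_of_gt hjl)]
  have h3 : ρ z = -LinearMap.id := by
    apply LinearMap.ext_on (hirr v0 hv0)
    rintro _ ⟨g, rfl⟩
    change ρ z (ρ g v0) = -(ρ g v0)
    rw [← Module.End.mul_apply, ← map_mul, ← Subgroup.mem_center_iff.mp hzc g, map_mul,
      Module.End.mul_apply, h2, map_neg]
  rw [h3, LinearMap.neg_apply, LinearMap.id_apply]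

theorem vanish {f : G → Fin m → Matrix (Fin 2) (Fin 2) ℤ} {h : H → Fin m → Matrix (Fin 2) (Fin 2) ℚ} (hf : IsSL f) (hh : IsSL h)
    (hm : 0 < m) {x : Fin 2 → ℤ} (hx : Odd (x 0 + x 1)) {ρ : Representation ℚ H V}
    {μ : Representation ℤ G M} {k : Type} [Field k] [CharP k 229] [Module k W]
    {τ : Representation k G W} (hρ : IsIrrep h x ρ) (hμ : IsLatticeIn f h μ ρ)
    (hτ : IsReduction μ τ) : Acyclic τ := by
  let i₀ : Fin m := ⟨0, hm⟩
  obtain ⟨z, hz, hzc⟩ := hf.exists_z i₀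
  obtain ⟨z', hz', hzc'⟩ := hh.exists_z i₀
  obtain ⟨_, q, hq, _, hq'⟩ := hμ
  obtain ⟨n', e, w, q', hb, hqτ⟩ := hτ
  have h1 : ∀ v, μ z v = -v := by
    intro v
    apply hq
    rw [hq' z z' (fun i j l => ?_), rho_z hρ hx hz' hzc', map_neg]
    rw [hz, hz']
    by_cases hi : i = i₀
    · rw [if_pos hi, if_pos hi, Matrix.neg_apply, Matrix.neg_apply, Matrix.one_apply,
        Matrix.one_apply]
      by_cases hjl : j = l
      · rw [if_pos hjl, if_pos hjl]
        norm_num
      · rw [if_neg hjl, if_neg hjl]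
        norm_num
    · rw [if_neg hi, if_neg hi, Matrix.one_apply, Matrix.one_apply]
      by_cases hjl : j = l
      · rw [if_pos hjl, if_pos hjl]
        norm_num
      · rw [if_neg hjl, if_neg hjl]
        norm_num
  have h2 : τ z = -LinearMap.id := by
    refine w.ext fun i => ?_
    rw [← hb, ← hqτ, h1, map_neg, LinearMap.neg_apply, LinearMap.id_apply]
  have h3 : (2 : k) ≠ 0 := by
    intro h
    have h3 := (CharP.cast_eq_zero_iff k 229 2).mp (by exact_mod_cast h)
    norm_num at h3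
  intro n
  apply ModuleCat.subsingleton_of_isZero
  refine isZero_of_center hzc (Rep.of τ) (fun w => ?_) (isUnit_iff_ne_zero.mpr h3) n
  change τ z w = -w
  rw [h2, LinearMap.neg_apply, LinearMap.id_apply]

end Vanish

theorem main (m a : ℕ) (hm : 0 < m) (hm' : 229 ∣ m) (ha : a % 228 = 114)
    (k : Type) [Field k] [CharP k 229] {G H V M W : Type} [Group G] [Group H]
    [AddCommGroup V] [Module ℚ V] [AddCommGroup M] [AddCommGroup W] [Module k W]
    (f : G → Fin m → Matrix (Fin 2) (Fin 2) ℤ) (h : H → Fin m → Matrix (Fin 2) (Fin 2) ℚ)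
    (hf : IsSL f) (hh : IsSL h) :
    (∃ r : Fin m → Gal(AlgebraicClosure ℚ/ℚ) → Matrix.ProjGenLinGroup (Fin 2) k, IsOdd r ∧
      ∀ i, IsHom (r i) ∧ NearlyOrdinary 229 (wt a) (r i) ∧ NoStableLine (r i) ∧
        ∀ l, Nat.Prime l → l ≠ 229 → UnramifiedAt l (r i)) ∧
    (∃ (n : ℕ) (ρ : Representation ℚ H (Fin n → ℚ)) (μ : Representation ℤ G (Fin n → ℤ)),
      IsIrrep h (wt (a - 1)) ρ ∧ IsLatticeIn f h μ ρ) ∧
    ∀ (ρ : Representation ℚ H V) (μ : Representation ℤ G M) (τ : Representation k G W),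
      IsIrrep h (wt (a - 1)) ρ → IsLatticeIn f h μ ρ → IsReduction μ τ → Acyclic τ := by
  have ha1 : 1 ≤ a := by omega
  have hw : ((a : ℤ) - 1) = ((a - 1 : ℕ) : ℤ) := by
    rw [Nat.cast_sub ha1, Nat.cast_one]
  refine ⟨⟨fun _ σ => rho1 k σ, isOdd_rho1 k hm', fun _ => ⟨isHom_rho1 k,
    nearlyOrdinary_rho1 k ha, noStableLine_rho1 k, fun l hl hl' => unramifiedAt_rho1 k hl hl'⟩⟩,
    ?_, ?_⟩
  · rw [hw]
    exact exists_model hf hh (a - 1)
  · intro ρ μ τ hρ hμ hτ
    refine vanish hf hh hm ?_ hρ hμ hτ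
    change Odd ((a : ℤ) - 1 + 0)
    rw [add_zero, hw, Int.odd_iff]
    omega

end Pool.Agent.H4.S2Q
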